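import Pool.Agent.H66.ER2.Targets

set_option autoImplicit false

namespace Pool.Agent.H94.ER2

open Pool.Agent.H48.ER Pool.Agent.H52.ER2 Pool.Agent.H66.ER2

namespace LAB

open Classical in
/-- number of `q < p` with `E q` -/
noncomputable def cN (E : ℕ → Prop) : ℕ → ℕ
  | 0 => 0
  | (p + 1) => cN E p + if E p then 1 else 0

lemma cN_const (E : ℕ → Prop) (q : ℕ) : ∀ p, q ≤ p → (∀ k, q ≤ k → k < p → ¬ E k) →
    cN E p = cN E q := by
  intro p
  induction p with
  | zero => intro h _; obtain rfl : q = 0 := by omega
            rfl
  | succ p ih =>
    intro h hk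
    rcases Nat.lt_or_ge p q with h1 | h1
    · obtain rfl : q = p + 1 := by omega
      rfl
    · rw [cN, if_neg (hk p h1 (by omega)), add_zero]
      exact ih h1 (fun k h2 h3 => hk k h2 (by omega))

lemma prev (M : ℕ → Prop) (h0 : M 0) : ∀ p, 0 < p →
    ∃ q, q < p ∧ M q ∧ ∀ k, q < k → k < p → ¬ M k := by
  intro p
  induction p with
  | zero => intro h; omega
  | succ p ih =>
    intro _
    by_cases hM : M p
    · exact ⟨p, by omega, hM, fun k h1 h2 => by omega⟩
    · have hp : 0 < p := by
        rcases Nat.eq_zero_or_pos p with h | h
        · subst h; exact absurd h0 hM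
        · exact h
      obtain ⟨q, h1, h2, h3⟩ := ih hp
      refine ⟨q, by omega, h2, fun k h4 h5 => ?_⟩
      rcases Nat.lt_or_ge k p with h6 | h6
      · exact h3 k h4 h6
      · obtain rfl : k = p := by omega
        exact hM

lemma par1 (N : ℕ) (L : ℕ → Prop) (h0 : L 0)
    (hS : ∀ i j, i < j → j ≤ N → L i → L j → (∀ k, i < k → k < j → ¬ L k) →
      j = i + 1 ∨ Even (j - i)) :
    ∀ p, p ≤ N → L p → Even (p + cN (fun k => L k ∧ L (k + 1)) p) := by
  intro p
  induction p using Nat.strong_induction_on with
  | _ p ih =>
    intro hp hL
    rcases Nat.eq_zero_or_pos p with h | h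
    · subst h; simp [cN]
    · obtain ⟨q, h1, h2, h3⟩ := prev L h0 p h
      have hq := ih q h1 (by omega) h2
      by_cases hpq : p = q + 1
      · subst hpq
        rw [cN, if_pos ⟨h2, hL⟩]
        have : q + 1 + (cN (fun k => L k ∧ L (k + 1)) q + 1) =
          q + cN (fun k => L k ∧ L (k + 1)) q + 2 := by ring
        rw [this]
        exact hq.add even_two
      · rw [cN_const _ q p h1.le]
        · rcases hS q p h1 hp h2 hL h3 with h4 | h4
          · exact absurd h4 hpq
          · have : p + cN (fun k => L k ∧ L (k + 1)) q =
              q + cN (fun k => L k ∧ L (k + 1)) q + (p - q) := by omega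
            rw [this]
            exact hq.add h4
        · intro k h4 h5 h6
          rcases Nat.eq_or_lt_of_le h4 with h7 | h7
          · subst h7
            exact h3 (q + 1) (by omega) (by omega) h6.2
          · exact h3 k h7 h5 h6.1

end LAB

open LAB in
theorem pf_LAB : T_LAB := by
  intro N L1 L2 hN hN3 h10 h20 h1N h2N hint hS1 hS2
  by_contra hcon
  have key : ∀ i j, 0 < i → i < N → 0 < j → j < N → L1 i → L2 j →
      (∀ k, i < k → k < j → ¬ L1 k ∧ ¬ L2 k) → (∀ k, j < k → k < i → ¬ L1 k ∧ ¬ L2 k) →
      Even (i + j) := by
    intro i j a1 a2 a3 a4 a5 a6 a7 a8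
    by_contra h
    exact hcon ⟨i, j, a1, a2, a3, a4, a5, a6, a7, a8, Nat.not_even_iff_odd.mp h⟩
  have claim : ∀ p, p ≤ N → (L1 p ∨ L2 p) →
      Even (p + cN (fun k => L1 k ∧ L1 (k + 1)) p + cN (fun k => L2 k ∧ L2 (k + 1)) p) := by
    intro p
    induction p using Nat.strong_induction_on with
    | _ p ih =>
      intro hp hL
      rcases Nat.eq_zero_or_pos p with h | h
      · subst h; simp [cN]
      · obtain ⟨q, h1, h2, h3⟩ := prev (fun k => L1 k ∨ L2 k) (Or.inl h10) p h
        have hq := ih q h1 (by omega) h2
        have h31 : ∀ k, q < k → k < p → ¬ L1 k := fun k a b c => h3 k a b (Or.inl c)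
        have h32 : ∀ k, q < k → k < p → ¬ L2 k := fun k a b c => h3 k a b (Or.inr c)
        -- no common label
        have hmix : ¬ (L1 q ∧ L1 p) → ¬ (L2 q ∧ L2 p) → Even (q + p) := by
          intro n1 n2
          have hq0 : q ≠ 0 := by
            intro e
            subst e
            rcases hL with hL | hL
            · exact n1 ⟨h10, hL⟩
            · exact n2 ⟨h20, hL⟩
          have hpN : p ≠ N := by
            intro e
            subst e
            rcases h2 with h2 | h2
            · exact n1 ⟨h2, h1N⟩
            · exact n2 ⟨h2, h2N⟩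
          rcases h2 with h2 | h2
          · have h4 : L2 p := by
              rcases hL with hL | hL
              · exact absurd ⟨h2, hL⟩ n1
              · exact hL
            exact key q p (by omega) (by omega) (by omega) (by omega) h2 h4
              (fun k a b => ⟨h31 k a b, h32 k a b⟩) (fun k a b => by omega)
          · have h4 : L1 p := by
              rcases hL with hL | hL
              · exact hL
              · exact absurd ⟨h2, hL⟩ n2
            rw [add_comm]
            exact key p q (by omega) (by omega) (by omega) (by omega) h4 h2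
              (fun k a b => by omega) (fun k a b => ⟨h31 k a b, h32 k a b⟩)
        by_cases hpq : p = q + 1
        · subst hpq
          rw [cN, cN]
          by_cases c1 : L1 q ∧ L1 (q + 1)
          · by_cases c2 : L2 q ∧ L2 (q + 1)
            · exfalso
              have hq0 : q = 0 := by
                by_contra e
                exact hint q (by omega) (by omega) ⟨c1.1, c2.1⟩
              have := hint (q + 1) (by omega)
              rcases Nat.lt_or_ge (q + 1) N with h5 | h5
              · exact this h5 ⟨c1.2, c2.2⟩
              · omega
            · rw [if_pos c1, if_neg c2]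
              have e : q + 1 + (cN (fun k => L1 k ∧ L1 (k + 1)) q + 1) +
                (cN (fun k => L2 k ∧ L2 (k + 1)) q + 0) =
                q + cN (fun k => L1 k ∧ L1 (k + 1)) q + cN (fun k => L2 k ∧ L2 (k + 1)) q + 2 := by
                ring
              rw [e]
              exact hq.add even_two
          · by_cases c2 : L2 q ∧ L2 (q + 1)
            · rw [if_neg c1, if_pos c2]
              have e : q + 1 + (cN (fun k => L1 k ∧ L1 (k + 1)) q + 0) +
                (cN (fun k => L2 k ∧ L2 (k + 1)) q + 1) =
                q + cN (fun k => L1 k ∧ L1 (k + 1)) q + cN (fun k => L2 k ∧ L2 (k + 1)) q + 2 := by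
                ring
              rw [e]
              exact hq.add even_two
            · exfalso
              have := hmix c1 c2
              rw [Nat.even_iff] at this
              omega
        · have e1 : cN (fun k => L1 k ∧ L1 (k + 1)) p = cN (fun k => L1 k ∧ L1 (k + 1)) q := by
            apply cN_const _ q p h1.le
            intro k h4 h5 h6
            rcases Nat.eq_or_lt_of_le h4 with h7 | h7
            · subst h7
              exact h31 (q + 1) (by omega) (by omega) h6.2
            · exact h31 k h7 h5 h6.1
          have e2 : cN (fun k => L2 k ∧ L2 (k + 1)) p = cN (fun k => L2 k ∧ L2 (k + 1)) q := by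
            apply cN_const _ q p h1.le
            intro k h4 h5 h6
            rcases Nat.eq_or_lt_of_le h4 with h7 | h7
            · subst h7
              exact h32 (q + 1) (by omega) (by omega) h6.2
            · exact h32 k h7 h5 h6.1
          rw [e1, e2]
          have hev : Even (q + p) := by
            by_cases c1 : L1 q ∧ L1 p
            · rcases hS1 q p h1 hp c1.1 c1.2 h31 with h4 | h4
              · exact absurd h4 hpq
              · rw [Nat.even_iff] at h4 ⊢
                omega
            · by_cases c2 : L2 q ∧ L2 p
              · rcases hS2 q p h1 hp c2.1 c2.2 h32 with h4 | h4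
                · exact absurd h4 hpq
                · rw [Nat.even_iff] at h4 ⊢
                  omega
              · exact hmix c1 c2
          rw [Nat.even_iff] at hq hev ⊢
          omega
  have f1 := par1 N L1 h10 hS1 N le_rfl h1N
  have f2 := par1 N L2 h20 hS2 N le_rfl h2N
  have f3 := claim N le_rfl (Or.inl h1N)
  rw [Nat.even_iff] at f1 f2 f3
  rw [Nat.odd_iff] at hN
  omega

end Pool.Agent.H94.ER2
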