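import Pool.Agent.H56.ER2.Lib

set_option autoImplicit false

namespace Pool.Agent.H94.ER2

open Pool.Agent.H48.ER Pool.Agent.H52.ER2 Pool.Agent.H66.ER2 Pool.Agent.H56.ER2

theorem pf_WSP : T_WSP := by
  classical
  intro V G n u w x y R hIP hx hy
  obtain ⟨g, hpf, g0, gn, hR⟩ := IP.toPF hIP
  subst hR
  have hex : ∃ d, ∃ p q, p ≤ n ∧ q ≤ n ∧ G.Adj x (g p) ∧ G.Adj y (g q) ∧
      d = (p - q) + (q - p) := by
    obtain ⟨w1, ⟨p, _, hp, rfl⟩, h1⟩ := hx
    obtain ⟨w2, ⟨q, _, hq, rfl⟩, h2⟩ := hy
    exact ⟨_, p, q, hp, hq, h1, h2, rfl⟩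
  obtain ⟨p, q, hp, hq, h1, h2, hd⟩ := Nat.find_spec hex
  have hmin : ∀ p' q', p' ≤ n → q' ≤ n → G.Adj x (g p') → G.Adj y (g q') →
      (p - q) + (q - p) ≤ (p' - q') + (q' - p') := by
    intro p' q' a b c d
    rw [← hd]
    exact Nat.find_min' hex ⟨p', q', a, b, c, d, rfl⟩
  rcases Nat.le_total p q with hpq | hpq
  · refine ⟨q - p, g p, g q, seg g p q, PF.sub hpf hpq hq, ?_, ?_, ?_⟩
    · rintro w ⟨k, a, b, rfl⟩
      exact ⟨k, Nat.zero_le _, by omega, rfl⟩
    · rintro w ⟨k, a, b, rfl⟩
      constructor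
      · intro h
        have := hmin k q (by omega) hq h h2
        have : k = p := by omega
        rw [this]
      · intro h
        rw [h]; exact h1
    · rintro w ⟨k, a, b, rfl⟩
      constructor
      · intro h
        have := hmin p k hp (by omega) h1 h
        have : k = q := by omega
        rw [this]
      · intro h
        rw [h]; exact h2
  · refine ⟨p - q, g p, g q, seg g q p, (PF.sub hpf hpq hp).rev, ?_, ?_, ?_⟩
    · rintro w ⟨k, a, b, rfl⟩
      exact ⟨k, Nat.zero_le _, by omega, rfl⟩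
    · rintro w ⟨k, a, b, rfl⟩
      constructor
      · intro h
        have := hmin k q (by omega) hq h h2
        have : k = p := by omega
        rw [this]
      · intro h
        rw [h]; exact h1
    · rintro w ⟨k, a, b, rfl⟩
      constructor
      · intro h
        have := hmin p k hp (by omega) h1 h
        have : k = q := by omega
        rw [this]
      · intro h
        rw [h]; exact h2

end Pool.Agent.H94.ER2
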